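import Mathlib

set_option autoImplicit false

namespace Pool.Agent.Results.MP_4df60b_co.BiasedCoins

open Finset

/-- The members of `P(k,n)`, the points `1, …, n` being numbered `0, …, n - 1`: a set `A` belongs to
`P(k,n)` if `|A| = k + i - 1` with `i ≥ 1` implies that `A` contains the first `i - 1` points. -/
def Mem (k n : ℕ) (A : Finset (Fin n)) : Prop :=
  ∀ i : ℕ, 1 ≤ i → A.card = k + i - 1 → ∀ x : Fin n, (x : ℕ) < i - 1 → x ∈ A

/-- The poset `P(k,n)`, ordered by inclusion. -/
abbrev PP (k n : ℕ) : Type := {A : Finset (Fin n) // Mem k n A}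

noncomputable instance (k n : ℕ) : Fintype (PP k n) := by
  classical
  exact Fintype.ofFinite _

/-- The linear extensions of a finite poset, given by the positions of the elements. -/
abbrev LinExt (α : Type) [Fintype α] [PartialOrder α] : Type :=
  {L : α ≃ Fin (Fintype.card α) // ∀ a b, a ≤ b → L a ≤ L b}

noncomputable instance (α : Type) [Fintype α] [PartialOrder α] : Fintype (LinExt α) := by
  classical
  exact Fintype.ofFinite _

/-- `w` is a fractional realizer of the finite poset `α`. -/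
def IsFracRealizer {α : Type} [Fintype α] [PartialOrder α] (w : LinExt α → ℝ) : Prop :=
  (∀ L, 0 ≤ w L) ∧ ∀ a b : α, ¬ a ≤ b → ¬ b ≤ a →
    1 ≤ ∑ L ∈ (univ : Finset (LinExt α)).filter (fun L => L.1 b < L.1 a), w L

/-- The fractional dimension of a finite poset which is not a chain. -/
noncomputable def fdim (α : Type) [Fintype α] [PartialOrder α] : ℝ :=
  sInf {s : ℝ | ∃ w : LinExt α → ℝ, IsFracRealizer w ∧ s = ∑ L, w L}

lemma exists_linExt {α β : Type} [Fintype α] [PartialOrder α] [LinearOrder β] (key : α → β)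
    (hinj : Function.Injective key) (hmono : ∀ a b, a ≤ b → key a ≤ key b) :
    ∃ L : LinExt α, ∀ a b, key a < key b → L.1 a < L.1 b := by
  classical
  have hcard : (univ.image key).card = Fintype.card α := by
    rw [card_image_of_injective _ hinj, card_univ]
  let e : α ≃ (univ.image key : Finset β) :=
    Equiv.ofBijective (fun a => ⟨key a, mem_image_of_mem key (mem_univ a)⟩) (by
      constructor
      · intro a b h
        exact hinj (congrArg Subtype.val h)
      · rintro ⟨b, hb⟩
        obtain ⟨a, _, rfl⟩ := mem_image.1 hb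
        exact ⟨a, rfl⟩)
  let o := (univ.image key).orderIsoOfFin hcard
  have h1 : ∀ a b, key a < key b → o.symm (e a) < o.symm (e b) := by
    intro a b h
    rw [OrderIso.lt_iff_lt]
    exact h
  refine ⟨⟨e.trans o.symm.toEquiv, fun a b h => ?_⟩, fun a b h => h1 a b h⟩
  show o.symm (e a) ≤ o.symm (e b)
  rw [OrderIso.le_iff_le]
  exact hmono a b h

variable {k n : ℕ}

/-- one more than the largest point of colour `0` -/
def top (c : Fin n → Fin (k + 1)) (A : Finset (Fin n)) : ℕ :=
  (A.filter (fun x => c x = 0)).sup (fun x => (x : ℕ) + 1)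

lemma top_mono (c : Fin n → Fin (k + 1)) {A B : Finset (Fin n)} (h : A ⊆ B) : top c A ≤ top c B :=
  sup_mono (filter_subset_filter _ h)

lemma exists_ext (c : Fin n → Fin (k + 1)) :
    ∃ L : LinExt (PP k n), ∀ A B : PP k n, top c A.1 < top c B.1 → L.1 A < L.1 B := by
  classical
  let e := Fintype.equivFin (PP k n)
  obtain ⟨L, hL⟩ := exists_linExt
    (fun A : PP k n => toLex (top c A.1, toLex (A.1.card, (e A : ℕ)))) (by
      intro A B h
      have h2 : (e A : ℕ) = e B := by
        have := congrArg (fun z => (ofLex (ofLex z).2).2) h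
        exact this
      exact e.injective (Fin.ext h2)) (by
      intro A B h
      have h1 : A.1 ⊆ B.1 := h
      rcases eq_or_ne A B with rfl | hne
      · exact le_refl _
      · have h2 : A.1.card < B.1.card := card_lt_card (Finset.ssubset_iff_subset_ne.2
          ⟨h1, fun h => hne (Subtype.ext h)⟩)
        rw [Prod.Lex.le_iff]
        rcases (top_mono c h1).lt_or_eq with h3 | h3
        · exact Or.inl h3
        · refine Or.inr ⟨h3, ?_⟩
          show toLex (A.1.card, (e A : ℕ)) ≤ toLex (B.1.card, (e B : ℕ))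
          rw [Prod.Lex.le_iff]
          exact Or.inl h2)
  refine ⟨L, fun A B h => hL A B ?_⟩
  rw [Prod.Lex.lt_iff]
  exact Or.inl h

/-- the linear extension of a colouring -/
noncomputable def ext (c : Fin n → Fin (k + 1)) : LinExt (PP k n) := (exists_ext c).choose

lemma ext_spec (c : Fin n → Fin (k + 1)) (A B : PP k n) (h : top c A.1 < top c B.1) :
    (ext c).1 A < (ext c).1 B := (exists_ext c).choose_spec A B h

/-- the good colourings for a pair with `A ⊄ B` -/
lemma good (A B : PP k n) (h : ¬ A ≤ B) : ∃ (s : Fin n) (T : Finset (Fin n)), s ∉ T ∧ T.card ≤ k ∧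
    ∀ c : Fin n → Fin (k + 1), c s = 0 → (∀ t ∈ T, c t ≠ 0) → (ext c).1 B < (ext c).1 A := by
  classical
  obtain ⟨s, hsA, hsB⟩ := Finset.not_subset.1 h
  set d := B.1.card - k with hd
  have hin : ∀ x : Fin n, (x : ℕ) < d → x ∈ B.1 := by
    intro x hx
    refine B.2 (d + 1) (by omega) (by omega) x (by omega)
  refine ⟨s, B.1.filter (fun x => d ≤ (x : ℕ)), ?_, ?_, ?_⟩
  · intro h'
    exact hsB (mem_filter.1 h').1
  · have hc := card_filter_add_card_filter_not (s := B.1) (fun x : Fin n => d ≤ (x : ℕ))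
    have h1 : d ≤ (B.1.filter (fun x : Fin n => ¬ d ≤ (x : ℕ))).card := by
      have hn : d ≤ n := by
        have := card_le_univ B.1
        rw [Fintype.card_fin] at this
        omega
      have h2 : (univ : Finset (Fin d)).card ≤ (B.1.filter (fun x : Fin n => ¬ d ≤ (x : ℕ))).card := by
        refine card_le_card_of_injOn (fun x => Fin.castLE hn x) ?_ ?_
        · intro x _
          simp only [coe_filter, Set.mem_ofPred_eq, not_le]
          exact ⟨hin _ (by simp), by simp⟩
        · intro x _ y _ hxy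
          exact Fin.castLE_injective hn hxy
      simpa using h2
    omega
  · intro c h0 hT
    refine ext_spec c B A ?_
    have hs : d ≤ (s : ℕ) := by
      by_contra hlt
      exact hsB (hin s (by omega))
    have h1 : top c B.1 ≤ d := by
      refine Finset.sup_le fun x hx => ?_
      obtain ⟨hxB, hx0⟩ := mem_filter.1 hx
      by_contra hlt
      exact hT x (mem_filter.2 ⟨hxB, by omega⟩) hx0
    have h2 : (s : ℕ) + 1 ≤ top c A.1 :=
      Finset.le_sup (f := fun x : Fin n => (x : ℕ) + 1) (mem_filter.2 ⟨hsA, h0⟩)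
    omega

/-- number of colourings with `c s = 0` and no colour `0` on `T` -/
lemma count (s : Fin n) (T : Finset (Fin n)) (hs : s ∉ T) :
    (((univ : Finset (Fin n → Fin (k + 1))).filter
      (fun c => c s = 0 ∧ ∀ t ∈ T, c t ≠ 0)).card : ℝ)
      = ((k : ℝ) + 1) ^ n * ((1 / ((k : ℝ) + 1)) * ((k : ℝ) / (k + 1)) ^ T.card) := by
  classical
  have h1 : (univ : Finset (Fin n → Fin (k + 1))).filter (fun c => c s = 0 ∧ ∀ t ∈ T, c t ≠ 0)
      = Fintype.piFinset (fun x : Fin n => if x = s then ({0} : Finset (Fin (k + 1)))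
        else if x ∈ T then univ.erase 0 else univ) := by
    ext c
    simp only [mem_filter, mem_univ, true_and, Fintype.mem_piFinset]
    constructor
    · rintro ⟨h0, hT⟩ x
      by_cases hx : x = s
      · subst hx; simp [h0]
      · rw [if_neg hx]
        by_cases hxT : x ∈ T
        · rw [if_pos hxT]; simp [hT x hxT]
        · rw [if_neg hxT]; simp
    · intro h
      refine ⟨?_, fun t ht => ?_⟩
      · have := h s; simpa using this
      · have hts : t ≠ s := fun e => hs (e ▸ ht)
        have h7 := h t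
        rw [if_neg hts, if_pos ht] at h7
        simpa using h7
  rw [h1, Fintype.card_piFinset]
  push_cast
  have h2 : ∀ x : Fin n, (((if x = s then ({0} : Finset (Fin (k + 1)))
      else if x ∈ T then univ.erase 0 else univ).card : ℕ) : ℝ)
      = ((k : ℝ) + 1) * ((if x = s then 1 / ((k : ℝ) + 1) else 1) *
        (if x ∈ T then (k : ℝ) / (k + 1) else 1)) := by
    intro x
    have hk : (k : ℝ) + 1 ≠ 0 := by positivity
    by_cases hx : x = s
    · subst hx
      simp only [if_true, if_neg hs]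
      simp
      field_simp
    · rw [if_neg hx, if_neg hx]
      by_cases hxT : x ∈ T
      · rw [if_pos hxT, if_pos hxT, card_erase_of_mem (mem_univ _)]
        simp
        field_simp
      · rw [if_neg hxT, if_neg hxT]
        simp
  simp only [h2, prod_mul_distrib, prod_const, card_univ, Fintype.card_fin]
  congr 1
  congr 1
  · rw [prod_ite_eq' univ s (fun _ => 1 / ((k : ℝ) + 1))]
    simp
  · rw [prod_ite_mem, univ_inter, prod_const]

theorem bound (k n : ℕ) (hk : 1 ≤ k) : fdim (PP k n) ≤ ((k : ℝ) + 1) ^ (k + 1) / (k : ℝ) ^ k := by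
  classical
  have hk0 : (0 : ℝ) < k := by exact_mod_cast hk
  set C : ℝ := ((k : ℝ) + 1) ^ (k + 1) / (k : ℝ) ^ k with hC
  have hCpos : 0 < C := by positivity
  set u : ℝ := C / ((k : ℝ) + 1) ^ n with hu
  have hu0 : 0 ≤ u := by positivity
  refine csInf_le ⟨0, ?_⟩ ⟨fun L => ∑ c : Fin n → Fin (k + 1), if ext c = L then u else 0,
    ⟨fun L => sum_nonneg fun c _ => by split_ifs <;> simp [hu0], ?_⟩, ?_⟩
  · rintro s ⟨w, hw, rfl⟩
    exact sum_nonneg fun L _ => hw.1 L
  · intro A B hAB _
    obtain ⟨s, T, hsT, hT, hgood⟩ := good A B hAB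
    rw [sum_comm]
    have h1 : ∑ c : Fin n → Fin (k + 1), (if c s = 0 ∧ ∀ t ∈ T, c t ≠ 0 then u else 0)
        ≤ ∑ c : Fin n → Fin (k + 1),
          ∑ L ∈ (univ : Finset (LinExt (PP k n))).filter (fun L => L.1 B < L.1 A),
            (if ext c = L then u else 0) := by
      refine sum_le_sum fun c _ => ?_
      split_ifs with hc
      · rw [sum_ite_eq, if_pos]
        exact mem_filter.2 ⟨mem_univ _, hgood c hc.1 hc.2⟩
      · exact sum_nonneg fun L _ => by split_ifs <;> simp [hu0]
    refine le_trans ?_ h1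
    rw [← sum_filter, sum_const, nsmul_eq_mul, count s T hsT, hu]
    have h2 : ((k : ℝ) / (k + 1)) ^ k ≤ ((k : ℝ) / (k + 1)) ^ T.card :=
      pow_le_pow_of_le_one (by positivity) (by rw [div_le_one (by positivity)]; linarith) hT
    have h3 : (1 : ℝ) = ((1 / ((k : ℝ) + 1)) * ((k : ℝ) / (k + 1)) ^ k) * C := by
      rw [hC, div_pow, pow_succ]
      field_simp
    have h4 : ((k : ℝ) + 1) ^ n * ((1 / ((k : ℝ) + 1)) * ((k : ℝ) / (k + 1)) ^ T.card)
        * (C / ((k : ℝ) + 1) ^ n) = ((1 / ((k : ℝ) + 1)) * ((k : ℝ) / (k + 1)) ^ T.card) * C := by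
      field_simp
    rw [h4]
    calc (1 : ℝ) = ((1 / ((k : ℝ) + 1)) * ((k : ℝ) / (k + 1)) ^ k) * C := h3
      _ ≤ _ := by gcongr
  · rw [sum_comm]
    simp only [sum_ite_eq, mem_univ, if_true, sum_const, card_univ, Fintype.card_fun,
      Fintype.card_fin, nsmul_eq_mul, hu]
    push_cast
    field_simp

lemma num (k : ℕ) (hk : 2 ≤ k) : ((k : ℝ) + 1) ^ (k + 1) / (k : ℝ) ^ k < 2 ^ (k + 1) := by
  have hk0 : (2 : ℝ) ≤ k := by exact_mod_cast hk
  rw [div_lt_iff₀ (by positivity)]
  have h1 : 1 + (k : ℝ) * (((k : ℝ) - 1) / (k + 1)) ≤ (1 + ((k : ℝ) - 1) / (k + 1)) ^ k := by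
    refine one_add_mul_le_pow ?_ k
    have : 0 ≤ ((k : ℝ) - 1) / (k + 1) := by
      apply div_nonneg <;> linarith
    linarith
  have h2 : 1 + ((k : ℝ) - 1) / (k + 1) = 2 * k / (k + 1) := by field_simp; ring
  rw [h2, div_pow] at h1
  have h3 : ((k : ℝ) + 1) / 2 < 1 + (k : ℝ) * (((k : ℝ) - 1) / (k + 1)) := by
    rw [div_lt_iff₀ (by norm_num)]
    have : (1 + (k : ℝ) * (((k : ℝ) - 1) / (k + 1))) * 2 - (k + 1)
        = ((k : ℝ) - 1) ^ 2 / (k + 1) := by field_simp; ring
    have h5 : 0 < ((k : ℝ) - 1) ^ 2 / (k + 1) := by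
      apply div_pos
      · apply pow_pos; linarith
      · linarith
    linarith
  have h4 : ((k : ℝ) + 1) / 2 < (2 * k) ^ k / (k + 1) ^ k := lt_of_lt_of_le h3 h1
  rw [lt_div_iff₀ (by positivity)] at h4
  rw [mul_pow] at h4
  rw [pow_succ, pow_succ]
  nlinarith [h4]

theorem result :
    (∀ k n : ℕ, 1 ≤ k → fdim (PP k n) ≤ ((k : ℝ) + 1) ^ (k + 1) / (k : ℝ) ^ k) ∧
    ∀ k : ℕ, 2 ≤ k → ∃ ε : ℝ, 0 < ε ∧ ∀ n : ℕ, fdim (PP k n) ≤ 2 ^ (k + 1) - ε := by
  refine ⟨fun k n hk => bound k n hk, fun k hk => ?_⟩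
  refine ⟨2 ^ (k + 1) - ((k : ℝ) + 1) ^ (k + 1) / (k : ℝ) ^ k, by linarith [num k hk], fun n => ?_⟩
  have := bound k n (by omega)
  linarith

end Pool.Agent.Results.MP_4df60b_co.BiasedCoins
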